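import Mathlib
import Pool.Agent.R311.DEH.A7

/-! Maxima over the end of the summation, by dyadic blocks. -/

set_option autoImplicit false

namespace Pool.Agent.K3h95.MX
open Finset
open Pool.Agent.H807R2.Dav
open Pool.Agent.H373R2.T7

/-- the block sum -/
noncomputable def Bl (f : ℕ → ℂ) (N i c : ℕ) : ℂ :=
  ∑ n ∈ (Ico 1 N).filter (fun n => n / 2 ^ i = c), f n

/-- the square root of the sum of the squares of the block sums -/
noncomputable def Ms (f : ℕ → ℂ) (N X i : ℕ) : ℝ :=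
  Real.sqrt (∑ c ∈ range (X + 1), ‖Bl f N i c‖ ^ 2)

lemma step (f : ℕ → ℂ) (N X i y : ℕ) (hy : y ≤ N) (hN : N ≤ X) :
    ‖∑ n ∈ Ico 1 (2 ^ i * (y / 2 ^ i)), f n‖ ≤
      ‖∑ n ∈ Ico 1 (2 ^ (i + 1) * (y / 2 ^ (i + 1))), f n‖ + Ms f N X i := by
  have h2 : 0 < 2 ^ i := by positivity
  have e1 : y / 2 ^ (i + 1) = (y / 2 ^ i) / 2 := by rw [pow_succ, Nat.div_div_eq_div_mul]
  set d := y / 2 ^ i with hd
  have hdy : 2 ^ i * d ≤ y := Nat.mul_div_le y (2 ^ i)
  have hM : 0 ≤ Ms f N X i := Real.sqrt_nonneg _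
  rcases Nat.mod_two_eq_zero_or_one d with h | h
  · have e2 : 2 ^ (i + 1) * (y / 2 ^ (i + 1)) = 2 ^ i * d := by
      rw [e1, pow_succ, mul_assoc]
      congr 1
      omega
    rw [e2]
    linarith
  · have e2 : 2 ^ (i + 1) * (y / 2 ^ (i + 1)) = 2 ^ i * (d - 1) := by
      rw [e1, pow_succ, mul_assoc]
      congr 1
      omega
    rw [e2]
    have hd1 : 1 ≤ d := by
      rcases Nat.eq_zero_or_pos d with h0 | h0
      · rw [h0] at h
        simp at h
      · exact h0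
    have e3 : ∑ n ∈ Ico 1 (2 ^ i * d), f n = ∑ n ∈ Ico 1 (2 ^ i * (d - 1)), f n + Bl f N i (d - 1) := by
      have e4 : Ico 1 (2 ^ i * d) = Ico 1 (2 ^ i * (d - 1)) ∪ (Ico 1 N).filter (fun n => n / 2 ^ i = d - 1) := by
        ext n
        rw [mem_union, mem_filter, mem_Ico, mem_Ico, mem_Ico, Nat.div_eq_iff h2]
        have e5 : 2 ^ i * d = 2 ^ i * (d - 1) + 2 ^ i := by
          conv_lhs => rw [show d = (d - 1) + 1 by omega, mul_add, mul_one]
        have e6 : (d - 1) * 2 ^ i = 2 ^ i * (d - 1) := mul_comm _ _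
        rw [e6]
        omega
      rw [e4, sum_union]
      · rfl
      · rw [disjoint_left]
        intro n hn hn2
        rw [mem_Ico] at hn
        rw [mem_filter, Nat.div_eq_iff h2] at hn2
        have e6 : (d - 1) * 2 ^ i = 2 ^ i * (d - 1) := mul_comm _ _
        rw [e6] at hn2
        omega
    rw [e3]
    refine (norm_add_le _ _).trans ?_
    have e7 : ‖Bl f N i (d - 1)‖ ≤ Ms f N X i := by
      unfold Ms
      apply Real.le_sqrt_of_sq_le
      apply single_le_sum (f := fun c => ‖Bl f N i c‖ ^ 2) (fun _ _ => by positivity)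
      rw [mem_range]
      have : d ≤ y := Nat.div_le_self _ _
      omega
    linarith

lemma partial_le (f : ℕ → ℂ) (N X y : ℕ) (hy : y ≤ N) (hN : N ≤ X) (J : ℕ) :
    ‖∑ n ∈ Ico 1 y, f n‖ ≤ ‖∑ n ∈ Ico 1 (2 ^ J * (y / 2 ^ J)), f n‖ + ∑ i ∈ range J, Ms f N X i := by
  induction J with
  | zero => simp
  | succ J ih =>
    rw [sum_range_succ]
    have := step f N X J y hy hN
    linarith

/-- the maximal inequality -/
lemma max_le (f : ℕ → ℂ) (N X y : ℕ) (hy : y ≤ N) (hN : N ≤ X) (J : ℕ) (hJ : X < 2 ^ J) :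
    ‖∑ n ∈ Ico 1 y, f n‖ ≤ ∑ i ∈ range J, Ms f N X i := by
  have h := partial_le f N X y hy hN J
  rw [Nat.div_eq_of_lt (by omega), mul_zero] at h
  simpa using h

/-- mean of the square function over `N` for one scale -/
lemma mean_Ms (X : ℕ) (a b : ℕ → ℂ) (δ : ℝ) (hδ : 0 ≤ δ)
    (h : ∀ α : ℝ, ‖∑ m ∈ Icc 1 X, a m * ee ((m : ℝ) * α)‖ ≤ δ) (i : ℕ) :
    ∑ N ∈ Icc 1 X, Ms (fun n => b n * a (N - n)) N X i ≤
      δ * Real.sqrt (X * ∑ n ∈ Icc 1 X, ‖b n‖ ^ 2) := by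
  -- squares
  have h1 : ∀ c ∈ range (X + 1), ∑ N ∈ Icc 1 X, ‖Bl (fun n => b n * a (N - n)) N i c‖ ^ 2 ≤
      δ ^ 2 * ∑ n ∈ (Icc 1 X).filter (fun n => n / 2 ^ i = c), ‖b n‖ ^ 2 := by
    intro c _
    have h2 := Pool.Agent.R311.DEH.mean_sq X a (fun n => if n / 2 ^ i = c then b n else 0) δ h
    refine le_trans (le_of_eq ?_) (h2.trans (le_of_eq ?_))
    · apply sum_congr rfl
      intro N _
      unfold Bl
      rw [sum_filter]
      congr 2
      apply sum_congr rfl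
      intro n _
      split_ifs <;> simp
    · rw [sum_filter]
      congr 1
      apply sum_congr rfl
      intro n _
      split_ifs <;> simp
  have h2 : ∑ N ∈ Icc 1 X, (Ms (fun n => b n * a (N - n)) N X i) ^ 2 ≤
      δ ^ 2 * ∑ n ∈ Icc 1 X, ‖b n‖ ^ 2 := by
    have e1 : ∀ N ∈ Icc 1 X, (Ms (fun n => b n * a (N - n)) N X i) ^ 2 =
        ∑ c ∈ range (X + 1), ‖Bl (fun n => b n * a (N - n)) N i c‖ ^ 2 := by
      intro N _
      unfold Ms
      rw [Real.sq_sqrt (sum_nonneg fun _ _ => by positivity)]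
    rw [sum_congr rfl e1, sum_comm]
    refine (sum_le_sum h1).trans ?_
    rw [← mul_sum]
    apply mul_le_mul_of_nonneg_left _ (by positivity)
    rw [sum_fiberwise_of_maps_to (s := Icc 1 X) (t := range (X + 1)) (g := fun n => n / 2 ^ i)]
    intro n hn
    rw [mem_Icc] at hn
    rw [mem_range]
    have := Nat.div_le_self n (2 ^ i)
    omega
  have h3 : (∑ N ∈ Icc 1 X, Ms (fun n => b n * a (N - n)) N X i) ^ 2 ≤
      (δ * Real.sqrt (X * ∑ n ∈ Icc 1 X, ‖b n‖ ^ 2)) ^ 2 := by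
    have h4 := sq_sum_le_card_mul_sum_sq (s := Icc 1 X)
      (f := fun N => Ms (fun n => b n * a (N - n)) N X i)
    rw [Nat.card_Icc, Nat.add_sub_cancel] at h4
    refine h4.trans ?_
    rw [mul_pow, Real.sq_sqrt (by positivity)]
    calc (X : ℝ) * _ ≤ X * (δ ^ 2 * ∑ n ∈ Icc 1 X, ‖b n‖ ^ 2) :=
          mul_le_mul_of_nonneg_left h2 (by positivity)
      _ = _ := by ring
  exact le_of_sq_le_sq h3 (by positivity)

/-- the largest absolute value of the sums over `n < y`, for `y ≤ N` -/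
noncomputable def mx (f : ℕ → ℝ) (N : ℕ) : ℝ :=
  (range (N + 1)).sup' ⟨0, by simp⟩ (fun y => |∑ n ∈ Ico 1 y, f n|)

lemma mx_nonneg (f : ℕ → ℝ) (N : ℕ) : 0 ≤ mx f N := by
  unfold mx
  refine le_trans (abs_nonneg (∑ n ∈ Ico 1 0, f n)) ?_
  exact le_sup' (f := fun y => |∑ n ∈ Ico 1 y, f n|) (by simp)

lemma le_mx (f : ℕ → ℝ) {N y : ℕ} (hy : y ≤ N) : |∑ n ∈ Ico 1 y, f n| ≤ mx f N := by
  unfold mx
  exact le_sup' (f := fun y => |∑ n ∈ Ico 1 y, f n|) (by rw [mem_range]; omega)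

lemma exists_J (X : ℕ) (hX : 1 ≤ X) : ∃ J : ℕ, X < 2 ^ J ∧ (J : ℝ) ≤ 2 * (1 + Real.log X) := by
  refine ⟨Nat.log 2 X + 1, Nat.lt_pow_succ_log_self (by norm_num) X, ?_⟩
  have hXp : (0 : ℝ) < X := by exact_mod_cast hX
  have h1 : 2 ^ (Nat.log 2 X) ≤ X := Nat.pow_log_le_self 2 (by omega)
  have h2 : ((2 : ℝ) ^ (Nat.log 2 X)) ≤ X := by exact_mod_cast h1
  have h3 := Real.log_le_log (by positivity) h2
  rw [Real.log_pow] at h3
  have h4 := Real.log_two_gt_d9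
  have h5 : (0 : ℝ) ≤ Nat.log 2 X := by positivity
  push_cast
  nlinarith

/-- the mean over `N` of the maximum over `y ≤ N` -/
theorem mean_mx (X : ℕ) (hX : 1 ≤ X) (a b : ℕ → ℝ) (δ : ℝ) (hδ : 0 ≤ δ)
    (h : ∀ α : ℝ, ‖∑ m ∈ Icc 1 X, (a m : ℂ) * ee ((m : ℝ) * α)‖ ≤ δ)
    (hb : ∀ n ∈ Icc 1 X, |b n| ≤ 1 + Real.log X) :
    ∑ N ∈ Icc 1 X, mx (fun n => b n * a (N - n)) N ≤ δ * (2 * X * (1 + Real.log X) ^ 2) := by
  obtain ⟨J, hJ1, hJ2⟩ := exists_J X hX
  have hlX : 0 ≤ Real.log X := Real.log_nonneg (by exact_mod_cast hX)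
  have h1 : ∀ N ∈ Icc 1 X, mx (fun n => b n * a (N - n)) N ≤
      ∑ i ∈ range J, Ms (fun n => (b n : ℂ) * (a (N - n) : ℂ)) N X i := by
    intro N hN
    rw [mem_Icc] at hN
    unfold mx
    apply sup'_le
    intro y hy
    rw [mem_range] at hy
    have h2 := max_le (fun n => (b n : ℂ) * (a (N - n) : ℂ)) N X y (by omega) hN.2 J hJ1
    refine le_trans (le_of_eq ?_) h2
    rw [← Real.norm_eq_abs, ← Complex.norm_real]
    push_cast
    rfl
  refine (sum_le_sum h1).trans ?_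
  rw [sum_comm]
  have h2 : ∀ i ∈ range J, ∑ N ∈ Icc 1 X, Ms (fun n => (b n : ℂ) * (a (N - n) : ℂ)) N X i ≤
      δ * (X * (1 + Real.log X)) := by
    intro i _
    refine (mean_Ms X (fun m => (a m : ℂ)) (fun n => (b n : ℂ)) δ hδ h i).trans ?_
    apply mul_le_mul_of_nonneg_left _ hδ
    have h3 : ∑ n ∈ Icc 1 X, ‖(b n : ℂ)‖ ^ 2 ≤ X * (1 + Real.log X) ^ 2 := by
      calc ∑ n ∈ Icc 1 X, ‖(b n : ℂ)‖ ^ 2 ≤ ∑ n ∈ Icc 1 X, (1 + Real.log X) ^ 2 := by
            apply sum_le_sum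
            intro n hn
            rw [Complex.norm_real, Real.norm_eq_abs]
            exact pow_le_pow_left₀ (abs_nonneg _) (hb n hn) 2
        _ = _ := by rw [sum_const, Nat.card_Icc, nsmul_eq_mul]; simp
    calc Real.sqrt (X * ∑ n ∈ Icc 1 X, ‖(b n : ℂ)‖ ^ 2) ≤
        Real.sqrt ((X * (1 + Real.log X)) ^ 2) := by
          apply Real.sqrt_le_sqrt
          calc (X : ℝ) * _ ≤ X * (X * (1 + Real.log X) ^ 2) :=
                mul_le_mul_of_nonneg_left h3 (by positivity)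
            _ = _ := by ring
      _ = _ := Real.sqrt_sq (by positivity)
  refine (sum_le_sum h2).trans ?_
  rw [sum_const, card_range, nsmul_eq_mul]
  calc (J : ℝ) * (δ * (X * (1 + Real.log X))) ≤ 2 * (1 + Real.log X) * (δ * (X * (1 + Real.log X))) := by
        apply mul_le_mul_of_nonneg_right hJ2 (by positivity)
    _ = _ := by ring

end Pool.Agent.K3h95.MX
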