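import Mathlib
import Pool.Agent.K3h95.MX.B1

/-! The average over `N` of the twisted discrepancies with maxima. -/

set_option autoImplicit false

namespace Pool.Agent.K3h95.MX
open Finset
open Pool.Agent.H807R2.Dav
open Pool.Agent.H373R2.T7
open Pool.Agent.R311.DEH

/-- the twisted sum over `n < y`, `n ≡ N (mod q)`, with weights `β(n) Λ(n) g(N - n)` -/
noncomputable def Ty (β g : ℕ → ℝ) (q N y : ℕ) : ℝ :=
  ∑ n ∈ (Ico 1 y).filter (fun n => n ≡ N [MOD q]), β n * ArithmeticFunction.vonMangoldt n * g (N - n)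

/-- the maximum over `y ≤ N` of the twisted sums -/
noncomputable def Mq (β g : ℕ → ℝ) (q N : ℕ) : ℝ :=
  mx (fun n => β n * ArithmeticFunction.vonMangoldt n * (if q ∣ N - n then g (N - n) else 0)) N

lemma Ty_eq (β g : ℕ → ℝ) (q N y : ℕ) (hy : y ≤ N) : Ty β g q N y =
    ∑ n ∈ Ico 1 y, β n * ArithmeticFunction.vonMangoldt n * (if q ∣ N - n then g (N - n) else 0) := by
  unfold Ty
  rw [sum_filter]
  apply sum_congr rfl
  intro n hn
  rw [mem_Ico] at hn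
  have h1 : n ≡ N [MOD q] ↔ q ∣ N - n := Nat.modEq_iff_dvd' (by omega)
  by_cases h : q ∣ N - n
  · rw [if_pos (h1.2 h), if_pos h]
  · rw [if_neg (fun hh => h (h1.1 hh)), if_neg h, mul_zero]

lemma Ty_le (β g : ℕ → ℝ) (q N y : ℕ) (hy : y ≤ N) : |Ty β g q N y| ≤ Mq β g q N := by
  rw [Ty_eq β g q N y hy]
  exact le_mx _ hy

lemma Mq_nonneg (β g : ℕ → ℝ) (q N : ℕ) : 0 ≤ Mq β g q N := mx_nonneg _ _

/-- the mean over `N` for one modulus -/
theorem mean_Mq (U : ℕ) : ∃ Y0 : ℕ, 4 ≤ Y0 ∧ ∀ X q K : ℕ, 1 ≤ q → Y0 ≤ K → K ≤ X / q → ∀ β g : ℕ → ℝ,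
    (∀ n, |β n| ≤ 1) → (g = g1 ∨ g = g2) →
    ∑ N ∈ Icc 1 X, Mq β g q N ≤ dl U X q K * (2 * X * (1 + Real.log X) ^ 2) := by
  obtain ⟨Y0, hY0, h⟩ := g_bound U
  refine ⟨Y0, hY0, fun X q K hq hK hKX β g hβ hg => ?_⟩
  have hK4 : 4 ≤ K := hY0.trans hK
  have hX4 : 4 ≤ X := (hK4.trans hKX).trans (Nat.div_le_self _ _)
  have hdl := dl_nonneg U X q K (by omega) (by omega)
  have h1 := h X q K hq hK hKX g hg
  refine mean_mx X (by omega) (fun m => if q ∣ m then g m else 0)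
    (fun n => β n * ArithmeticFunction.vonMangoldt n) (dl U X q K) hdl ?_ ?_
  · intro α
    refine le_trans (le_of_eq ?_) (h1 α)
    congr 1
    apply sum_congr rfl
    intro m _
    split_ifs <;> simp
  · intro n hn
    rw [mem_Icc] at hn
    rw [abs_mul, abs_of_nonneg (ArithmeticFunction.vonMangoldt_nonneg (n := n))]
    have h2 : ArithmeticFunction.vonMangoldt n ≤ Real.log n := ArithmeticFunction.vonMangoldt_le_log
    have hn0 : (0 : ℝ) < n := by exact_mod_cast hn.1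
    have h3 := Real.log_le_log hn0 (show (n : ℝ) ≤ X by exact_mod_cast hn.2)
    have h4 := hβ n
    have h5 := ArithmeticFunction.vonMangoldt_nonneg (n := n)
    nlinarith [abs_nonneg (β n)]

/-- an upper bound for the discrepancy with maxima over the moduli with `K ≤ X / q` -/
noncomputable def DM (β g : ℕ → ℝ) (X K N : ℕ) : ℝ :=
  ∑ q ∈ Qs X K, (Mq β g q N + 1 / (Nat.totient q : ℝ) * Mq β g 1 N)

theorem sum_DM (U : ℕ) : ∃ Y0 : ℕ, 4 ≤ Y0 ∧ ∀ X K T : ℕ, Y0 ≤ K → K ≤ X → 1 ≤ T → T ^ 3 ≤ ct K →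
    ∀ β g : ℕ → ℝ, (∀ n, |β n| ≤ 1) → (g = g1 ∨ g = g2) → ∑ N ∈ Icc 1 X, DM β g X K N ≤
      32 * (1 + Real.log X) ^ 9 * X ^ 2 * (2 ^ U / Real.log K ^ U + 1 / T) := by
  obtain ⟨Y0, hY0, h⟩ := mean_Mq U
  refine ⟨Y0, hY0, fun X K T hK hKX hT hTK β g hβ hg => ?_⟩
  have hK4 : 4 ≤ K := hY0.trans hK
  have hX4 : 4 ≤ X := hK4.trans hKX
  have hXr : (4 : ℝ) ≤ X := by exact_mod_cast hX4
  have hKr : (4 : ℝ) ≤ K := by exact_mod_cast hK4
  have hTr : (1 : ℝ) ≤ T := by exact_mod_cast hT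
  have hlX : 0 < Real.log X := Real.log_pos (by linarith)
  have hlK : 0 < Real.log K := Real.log_pos (by linarith)
  set ℓ := 1 + Real.log X with hℓ
  have hℓ1 : 1 ≤ ℓ := by linarith
  set Z := 2 ^ U / Real.log K ^ U + 1 / (T : ℝ) with hZ
  have hZ0 : 0 ≤ Z := by positivity
  have hQ : ∑ q ∈ Qs X K, ∑ N ∈ Icc 1 X, Mq β g q N ≤ 16 * ℓ ^ 5 * X ^ 2 * Z := by
    have h1 : ∀ q ∈ Qs X K, ∑ N ∈ Icc 1 X, Mq β g q N ≤ dl U X q K * (2 * X * ℓ ^ 2) := by
      intro q hq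
      rw [Qs, mem_filter, mem_Icc] at hq
      exact h X q K hq.1.1 hK hq.2 β g hβ hg
    refine (sum_le_sum h1).trans ?_
    rw [← sum_mul]
    calc _ ≤ (8 * ℓ ^ 3 * X * Z) * (2 * X * ℓ ^ 2) :=
          mul_le_mul_of_nonneg_right (sum_dl U X K T hX4 hK4 hT hTK) (by positivity)
      _ = _ := by ring
  have h1mem : 1 ∈ Qs X K := by
    rw [Qs, mem_filter, mem_Icc, Nat.div_one]
    exact ⟨⟨le_rfl, by omega⟩, hKX⟩
  have h1sum : ∑ N ∈ Icc 1 X, Mq β g 1 N ≤ 16 * ℓ ^ 5 * X ^ 2 * Z := by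
    refine le_trans ?_ hQ
    exact single_le_sum (f := fun q => ∑ N ∈ Icc 1 X, Mq β g q N)
      (fun q _ => sum_nonneg fun _ _ => Mq_nonneg _ _ _ _) h1mem
  have hphi : ∑ q ∈ Qs X K, 1 / (Nat.totient q : ℝ) ≤ ℓ ^ 4 := by
    obtain hk := Pool.Agent.H398R2.BV.sum_card_pow_div
    have e1 : ∑ q ∈ Qs X K, 1 / (Nat.totient q : ℝ) ≤ ∑ q ∈ Icc 1 X, 1 / (Nat.totient q : ℝ) :=
      sum_le_sum_of_subset_of_nonneg (filter_subset _ _) (fun _ _ _ => by positivity)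
    refine e1.trans ?_
    have e2 : ∀ q ∈ Icc 1 X, 1 / (Nat.totient q : ℝ) ≤ (q.divisors.card : ℝ) ^ 1 / q := by
      intro q hq
      rw [mem_Icc] at hq
      refine (Pool.Agent.H398R2.BV.one_div_totient_le q hq.1).trans ?_
      have hq0 : (0 : ℝ) < q := by exact_mod_cast hq.1
      apply div_le_div_of_nonneg_right _ hq0.le
      rw [pow_one]
      exact_mod_cast Pool.Agent.H398R2.BV.two_pow_omega_le q (by omega)
    refine (sum_le_sum e2).trans ?_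
    have e3 := hk 1 X
    refine e3.trans ?_
    rw [pow_one]
    exact pow_le_pow_right₀ hℓ1 (by norm_num)
  have hDM : ∑ N ∈ Icc 1 X, DM β g X K N = ∑ q ∈ Qs X K, ∑ N ∈ Icc 1 X, Mq β g q N +
      (∑ q ∈ Qs X K, 1 / (Nat.totient q : ℝ)) * ∑ N ∈ Icc 1 X, Mq β g 1 N := by
    unfold DM
    rw [sum_comm, sum_mul, ← sum_add_distrib]
    apply sum_congr rfl
    intro q _
    rw [mul_sum, ← sum_add_distrib]
  rw [hDM]
  have h0 : 0 ≤ ∑ N ∈ Icc 1 X, Mq β g 1 N := sum_nonneg fun _ _ => Mq_nonneg _ _ _ _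
  calc _ ≤ 16 * ℓ ^ 5 * X ^ 2 * Z + ℓ ^ 4 * (16 * ℓ ^ 5 * X ^ 2 * Z) := by
        apply add_le_add hQ
        exact mul_le_mul hphi h1sum h0 (by positivity)
    _ ≤ 16 * ℓ ^ 9 * X ^ 2 * Z + 16 * ℓ ^ 9 * X ^ 2 * Z := by
        have e1 : ℓ ^ 5 ≤ ℓ ^ 9 := pow_le_pow_right₀ hℓ1 (by norm_num)
        have e2 : 16 * ℓ ^ 5 * X ^ 2 * Z ≤ 16 * ℓ ^ 9 * X ^ 2 * Z := by gcongr
        have e3 : ℓ ^ 4 * (16 * ℓ ^ 5 * X ^ 2 * Z) = 16 * ℓ ^ 9 * X ^ 2 * Z := by ring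
        linarith
    _ = _ := by ring

/-- the discrepancy with maxima over `y ≤ N`, over the moduli `q ≤ Q` coprime to `N` -/
noncomputable def DX (β g : ℕ → ℝ) (N : ℕ) (Q : ℝ) : ℝ :=
  ∑ q ∈ (Icc 1 ⌊Q⌋₊).filter (fun q => q.Coprime N),
    (range (N + 1)).sup' ⟨0, by simp⟩
      (fun y => |Ty β g q N y - 1 / (Nat.totient q : ℝ) * Ty β g 1 N y|)

lemma sup_nonneg (β g : ℕ → ℝ) (q N : ℕ) : 0 ≤ (range (N + 1)).sup' ⟨0, by simp⟩
      (fun y => |Ty β g q N y - 1 / (Nat.totient q : ℝ) * Ty β g 1 N y|) := by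
  refine le_trans (abs_nonneg (Ty β g q N 0 - 1 / (Nat.totient q : ℝ) * Ty β g 1 N 0)) ?_
  exact le_sup' (f := fun y => |Ty β g q N y - 1 / (Nat.totient q : ℝ) * Ty β g 1 N y|) (by simp)

lemma sup_le (β g : ℕ → ℝ) (q N : ℕ) : (range (N + 1)).sup' ⟨0, by simp⟩
      (fun y => |Ty β g q N y - 1 / (Nat.totient q : ℝ) * Ty β g 1 N y|) ≤
      Mq β g q N + 1 / (Nat.totient q : ℝ) * Mq β g 1 N := by
  apply sup'_le
  intro y hy
  rw [mem_range] at hy
  refine (abs_sub _ _).trans ?_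
  rw [abs_mul, abs_of_nonneg (show 0 ≤ 1 / (Nat.totient q : ℝ) by positivity)]
  apply add_le_add (Ty_le β g q N y (by omega))
  exact mul_le_mul_of_nonneg_left (Ty_le β g 1 N y (by omega)) (by positivity)

lemma DX_le (β g : ℕ → ℝ) (X K N : ℕ) (Q : ℝ) (hK : 1 ≤ K)
    (h : ∀ q : ℕ, 1 ≤ q → (q : ℝ) ≤ Q → K ≤ X / q) : DX β g N Q ≤ DM β g X K N := by
  unfold DX DM
  refine (sum_le_sum fun q _ => sup_le β g q N).trans ?_
  apply sum_le_sum_of_subset_of_nonneg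
  · intro q hq
    rw [mem_filter, mem_Icc] at hq
    have hQ0 : 0 ≤ Q := by
      by_contra hcon
      push Not at hcon
      have := Nat.floor_of_nonpos hcon.le
      omega
    have h1 : (q : ℝ) ≤ Q := (Nat.le_floor_iff hQ0).1 hq.1.2
    have h2 := h q hq.1.1 h1
    rw [Qs, mem_filter, mem_Icc]
    refine ⟨⟨hq.1.1, ?_⟩, h2⟩
    by_contra hcon
    push Not at hcon
    rw [Nat.div_eq_of_lt hcon] at h2
    omega
  · intro q _ _
    have := Mq_nonneg β g q N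
    have := Mq_nonneg β g 1 N
    positivity

lemma DX_mono (β g : ℕ → ℝ) (N : ℕ) {Q Q' : ℝ} (h : Q ≤ Q') : DX β g N Q ≤ DX β g N Q' := by
  unfold DX
  apply sum_le_sum_of_subset_of_nonneg
  · intro q hq
    rw [mem_filter, mem_Icc] at hq ⊢
    exact ⟨⟨hq.1.1, hq.1.2.trans (Nat.floor_le_floor h)⟩, hq.2⟩
  · intro q _ _; exact sup_nonneg β g q N

theorem few_bad1 (c : ℝ) (hc : 0 < c) (hc1 : c ≤ 1) (A B : ℕ) : ∃ X0 : ℕ, ∀ X : ℕ, X0 ≤ X →
    ∀ β g : ℕ → ℝ, (∀ n, |β n| ≤ 1) → (g = g1 ∨ g = g2) →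
    (((Icc 1 X).filter (fun N : ℕ => (N : ℝ) / Real.log N ^ A <
      DX β g N (N * Real.exp (-(Real.log N) ^ c)))).card : ℝ) ≤ X / Real.log X ^ B := by
  obtain ⟨U, X1, hU⟩ := U_ex c hc (A + 2 * B + 16)
  obtain ⟨Y0, hY0, hsum⟩ := sum_DM U
  obtain ⟨X2, hK1⟩ := K_large c hc Y0
  obtain ⟨X3, hK2⟩ := K_le c hc hc1
  obtain ⟨X4, hT⟩ := T_ex c hc (A + 2 * B + 16)
  obtain ⟨X5, hlow⟩ := low_N (B + 2)
  obtain ⟨X6, hlog⟩ := Filter.eventually_atTop.1 (tlog.eventually_ge_atTop 4)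
  refine ⟨X1 + X2 + X3 + X4 + X5 + X6 + 1, fun X hX β g hβ hg => ?_⟩
  have a1 := hU X (by omega)
  have a2 := hK1 X (by omega)
  have a3 := hK2 X (by omega)
  obtain ⟨T, hT1, hTct, hTge⟩ := hT X (by omega)
  have a5 := hlow X (by omega)
  have a6 := hlog X (by omega)
  have hX1 : 1 ≤ X := by omega
  have hXp : (0 : ℝ) < X := by exact_mod_cast hX1
  have a7 := hsum X (KK' c X) T a2 a3 hT1 hTct β g hβ hg
  have hℓ0 : 0 < 1 + Real.log X := by linarith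
  have a8 : 2 ^ U / Real.log (KK' c X) ^ U + 1 / (T : ℝ) ≤
      2 / (1 + Real.log X) ^ (A + 2 * B + 16) := by
    have h1 : 1 / (T : ℝ) ≤ 1 / (1 + Real.log X) ^ (A + 2 * B + 16) :=
      one_div_le_one_div_of_le (by positivity) hTge
    calc _ ≤ 1 / (1 + Real.log X) ^ (A + 2 * B + 16) + 1 / (1 + Real.log X) ^ (A + 2 * B + 16) :=
          add_le_add a1 h1
      _ = _ := by ring
  have a8' : 32 * (1 + Real.log X) ^ 9 * (X : ℝ) ^ 2 * (2 / (1 + Real.log X) ^ (A + 2 * B + 16)) ≤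
      16 * (1 + Real.log X) ^ 8 * X ^ 2 * (2 / (1 + Real.log X) ^ (A + 2 * B + 14)) := by
    have e1 : (1 + Real.log X) ^ (A + 2 * B + 16) = (1 + Real.log X) ^ (A + 2 * B + 14) * (1 + Real.log X) ^ 2 := by
      rw [← pow_add]
    rw [e1]
    have e2 : 32 * (1 + Real.log X) ^ 9 * (X : ℝ) ^ 2 *
        (2 / ((1 + Real.log X) ^ (A + 2 * B + 14) * (1 + Real.log X) ^ 2)) =
        (16 * (1 + Real.log X) ^ 8 * X ^ 2 * (2 / (1 + Real.log X) ^ (A + 2 * B + 14))) *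
          (2 / (1 + Real.log X)) := by
      field_simp
      ring
    rw [e2]
    have e3 : 2 / (1 + Real.log X) ≤ 1 := by
      rw [div_le_one hℓ0]
      linarith
    exact mul_le_of_le_one_right (by positivity) e3
  have a9 := count_step X (Real.log X) (1 + Real.log X) A B (DM β g X (KK' c X))
    (fun N => sum_nonneg fun q _ => by
      have := Mq_nonneg β g q N
      have := Mq_nonneg β g 1 N
      positivity) hX1 a6 rfl
    ((a7.trans (mul_le_mul_of_nonneg_left a8 (by positivity))).trans a8')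
  refine le_trans ?_ a9
  have hsub : (Icc 1 X).filter (fun N : ℕ => (N : ℝ) / Real.log N ^ A <
      DX β g N (N * Real.exp (-(Real.log N) ^ c))) ⊆
      (Icc 1 X).filter (fun N : ℕ => (N : ℝ) < X / (1 + Real.log X) ^ (B + 2) ∨
        X / (1 + Real.log X) ^ (A + B + 2) ≤ DM β g X (KK' c X) N) := by
    intro N hN
    rw [mem_filter] at hN ⊢
    refine ⟨hN.1, ?_⟩
    rcases lt_or_ge (N : ℝ) (X / (1 + Real.log X) ^ (B + 2)) with h7 | h7
    · exact Or.inl h7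
    · right
      have hNmem := mem_Icc.1 hN.1
      have hN0 : (0 : ℝ) < N := by exact_mod_cast hNmem.1
      have hNs : Real.exp (Real.log X / 2) ≤ N := a5.trans h7
      have h8 := DX_le β g X (KK' c X) N _ (by omega)
        (fun q hq hqN => level c hc X N hX1 hNs hNmem.2 q hq hqN)
      refine le_trans ?_ (hN.2.le.trans h8)
      have hlogN : Real.log X / 2 ≤ Real.log N := by
        rw [Real.le_log_iff_exp_le hN0]; exact hNs
      have hlogN0 : 0 < Real.log N := by linarith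
      have hlogN2 : Real.log N ≤ 1 + Real.log X := by
        have := Real.log_le_log hN0 (show (N : ℝ) ≤ X by exact_mod_cast hNmem.2)
        linarith
      calc X / (1 + Real.log X) ^ (A + B + 2) = (X / (1 + Real.log X) ^ (B + 2)) / (1 + Real.log X) ^ A := by
            rw [div_div, ← pow_add]; congr 2; ring
        _ ≤ N / (1 + Real.log X) ^ A := div_le_div_of_nonneg_right h7 (by positivity)
        _ ≤ N / Real.log N ^ A := by
            apply div_le_div_of_nonneg_left hN0.le (by positivity)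
            exact pow_le_pow_left₀ hlogN0.le hlogN2 _
  exact_mod_cast card_le_card hsub

end Pool.Agent.K3h95.MX
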